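import Pool.Agent.H959R2.DM.SHRINK
import Pool.Agent.H972R2.DM.CHAIN

namespace DM852
open RC14 RC852 Finset Filter Equiv

/-- from an element with support `≤ a n` to an element with prescribed size `t` of the support,
up to a constant factor -/
theorem CHAIN (a : ℝ) (ha : 0 < a) (ha1 : a ≤ 1 / 100) : ∀ᶠ n : ℕ in atTop,
    ∀ (k : ℕ) (y : Fin k → Alt n) (K : Type) [Fintype K] [Nonempty K] (g : K → Alt n) (h L : ℕ),
    Mix2 (fun v => (g v : Perm (Fin n))) → (∀ v, Len y h (g v)) →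
    ∀ r : Alt n, Len y L r → a / 4 * n ≤ ((r : Perm (Fin n)).support.card : ℝ) →
      ((r : Perm (Fin n)).support.card : ℝ) ≤ a * n → ∀ t : ℝ, (n : ℝ) ^ (1 / 4 : ℝ) ≤ t →
      t ≤ a / 4 * n →
    ∃ s : Alt n, a / 20 * t ≤ ((s : Perm (Fin n)).support.card : ℝ) ∧
      ((s : Perm (Fin n)).support.card : ℝ) ≤ t ∧
      ∃ L' : ℕ, Len y L' s ∧
        (L' : ℝ) ≤ 8 * (L + h) * (n : ℝ) ^ (Real.log 2 / Real.log (1 / (5 * a))) :=
  CHAIN.of_shrink SHRINK a ha ha1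

end DM852
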