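import Pool.Agent.H852R2.DM.Defs
import Pool.Agent.H852R2.DM.S.CONN
import Pool.Agent.H852R2.DM.S.SHRINK
import Pool.Agent.H852R2.DM.S.GEN
import Pool.Agent.H852R2.DM.S.SAMPLE

namespace DM852
open RC14 RC852 Finset Filter Equiv

section Len
variable {G : Type*} [Group G] {k : ℕ} {y : Fin k → G}

lemma Len.mono {L L' : ℕ} {g : G} (h : Len y L g) (hL : L ≤ L') : Len y L' g := by
  obtain ⟨l, h1, h2⟩ := h
  exact ⟨l, h1.trans hL, h2⟩

lemma Len.one (L : ℕ) : Len y L 1 := ⟨[], by simp, by simp⟩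

lemma Len.mul {L L' : ℕ} {g g' : G} (h : Len y L g) (h' : Len y L' g') :
    Len y (L + L') (g * g') := by
  obtain ⟨l, h1, h2⟩ := h
  obtain ⟨l', h1', h2'⟩ := h'
  refine ⟨l ++ l', ?_, ?_⟩
  · rw [List.length_append]; omega
  · rw [List.map_append, List.prod_append, h2, h2']

lemma Len.letter (i : Fin k) : Len y 1 (y i) := ⟨[(i, true)], by simp, by simp [sl]⟩

lemma sl_inv (a : Fin k × Bool) : (sl y a)⁻¹ = sl y (a.1, !a.2) := by
  rcases a with ⟨i, s⟩
  cases s <;> simp [sl]

lemma Len.inv {L : ℕ} {g : G} (h : Len y L g) : Len y L g⁻¹ := by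
  obtain ⟨l, h1, h2⟩ := h
  refine ⟨(l.map fun a => (a.1, !a.2)).reverse, by simpa using h1, ?_⟩
  rw [← h2, List.prod_inv_reverse, List.map_reverse, List.map_map, List.map_map]
  congr 2
  apply List.map_congr_left
  intro a _
  simp only [Function.comp]
  rw [sl_inv]

lemma Len.pow {L : ℕ} {g : G} (h : Len y L g) (m : ℕ) : Len y (m * L) (g ^ m) := by
  induction m with
  | zero => simpa using Len.one 0
  | succ m ih =>
    rw [pow_succ, add_mul, one_mul]
    exact ih.mul h

lemma Len.list {L : ℕ} (l : List G) (h : ∀ g ∈ l, Len y L g) : Len y (l.length * L) l.prod := by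
  induction l with
  | nil => simpa using Len.one 0
  | cons g l ih =>
    rw [List.prod_cons, List.length_cons, add_mul, one_mul, add_comm]
    exact (h g (by simp)).mul (ih fun g' hg' => h g' (by simp [hg']))

end Len

/-- conjugates depend only on the action on the support -/
lemma conj_eq_of_agree {n : ℕ} (s w γ : Perm (Fin n)) (h : ∀ p ∈ s.support, w p = γ p) :
    w * s * w⁻¹ = γ * s * γ⁻¹ := by
  have h1 : w * s = (γ * s * γ⁻¹) * w := by
    ext p
    simp only [Perm.coe_mul, Function.comp_apply]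
    by_cases hp : p ∈ s.support
    · have hsp : s p ∈ s.support := by
        rw [Perm.apply_mem_support]; exact hp
      rw [h p hp, h (s p) hsp]
      simp
    · have e1 : s p = p := Perm.notMem_support.mp hp
      rw [e1]
      -- `w p` is not in `γ (supp s)`
      have h2 : s (γ⁻¹ (w p)) = γ⁻¹ (w p) := by
        by_contra hne
        have h3 : γ⁻¹ (w p) ∈ s.support := Perm.mem_support.mpr hne
        have h4 := h _ h3
        have h6 : γ (γ⁻¹ (w p)) = w p := by simp
        rw [h6] at h4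
        have h5 := w.injective h4
        rw [h5] at h3
        exact hp h3
      rw [h2]; simp
  rw [h1]; group

/-- every element of `CC s` is reached -/
lemma CC_len {n k : ℕ} (y : Fin k → Alt n) (s : Alt n) (r Lc L' : ℕ)
    (hr : (s : Perm (Fin n)).support.card = r)
    (hc : ∀ a a' : Tup r n, ∃ g : Alt n, Len y Lc g ∧ mv (g : Perm (Fin n)) a = a')
    (hs : Len y L' s) (τ : Perm (Fin n)) (hτ : τ ∈ CC (s : Perm (Fin n))) :
    ∃ t : Alt n, (t : Perm (Fin n)) = τ ∧ Len y (2 * Lc + L') t := by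
  obtain ⟨γ, hγ⟩ := hτ
  -- an enumeration of the support
  let e : Fin r ≃ (s : Perm (Fin n)).support :=
    (finCongr hr.symm).trans (Finset.equivFin _).symm
  let a : Tup r n := ⟨fun i => (e i : Fin n), fun i j hij => e.injective (Subtype.ext hij)⟩
  obtain ⟨w, hw, hwa⟩ := hc a (mv γ a)
  have hagree : ∀ p ∈ (s : Perm (Fin n)).support, (w : Perm (Fin n)) p = γ p := by
    intro p hp
    have h1 : a (e.symm ⟨p, hp⟩) = p := by
      change (e (e.symm ⟨p, hp⟩) : Fin n) = p
      rw [Equiv.apply_symm_apply]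
    have h2 := congrArg (fun f : Tup r n => f (e.symm ⟨p, hp⟩)) hwa
    simp only [mv_apply] at h2
    rw [h1] at h2
    exact h2
  have hconj : (w : Perm (Fin n)) * s * (w : Perm (Fin n))⁻¹ = γ * s * γ⁻¹ :=
    conj_eq_of_agree _ _ _ hagree
  rcases hγ with hγ | hγ
  · refine ⟨w * s * w⁻¹, ?_, ?_⟩
    · push_cast
      rw [hconj, hγ]
    · exact ((hw.mul hs).mul hw.inv).mono (by omega)
  · refine ⟨w * s⁻¹ * w⁻¹, ?_, ?_⟩
    · push_cast
      rw [hγ]
      have := congrArg (·⁻¹) hconj
      simp only [mul_inv_rev, inv_inv] at this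
      rw [mul_assoc, this, mul_assoc]
    · exact ((hw.mul hs.inv).mul hw.inv).mono (by omega)

/-- all of `A_n` is reached -/
lemma ALL_len {n k : ℕ} (y : Fin k → Alt n) (s : Alt n) (r Lc L' d : ℕ)
    (hr : (s : Perm (Fin n)).support.card = r) (hd : 1 ≤ d) (hd2 : 12 * d ≤ r)
    (hc : ∀ a a' : Tup r n, ∃ g : Alt n, Len y Lc g ∧ mv (g : Perm (Fin n)) a = a')
    (hs : Len y L' s) (g : Alt n) (M : ℕ) (hM : (2 * n + 16 * d) * (2 * Lc + L') ≤ M * d) :
    Len y M g := by
  obtain ⟨A, hA1, hA2, hA3⟩ := INDEP (s : Perm (Fin n))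
  obtain ⟨l, hl1, hl2, hl3⟩ := GEN (s : Perm (Fin n)) A hA2 d hd (by omega) (g : Perm (Fin n))
    (Perm.mem_alternatingGroup.mp g.2)
  -- lift the list
  have hlift : ∀ l : List (Perm (Fin n)), (∀ τ ∈ l, τ ∈ CC (s : Perm (Fin n))) →
      ∃ l' : List (Alt n), l'.length = l.length ∧ ((l'.prod : Alt n) : Perm (Fin n)) = l.prod ∧
        ∀ t ∈ l', Len y (2 * Lc + L') t := by
    intro l
    induction l with
    | nil => intro _; exact ⟨[], rfl, by simp, by simp⟩
    | cons τ l ih =>
      intro h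
      obtain ⟨l', h1, h2, h3⟩ := ih fun τ' hτ' => h τ' (by simp [hτ'])
      obtain ⟨t, ht1, ht2⟩ := CC_len y s r Lc L' hr hc hs τ (h τ (by simp))
      refine ⟨t :: l', by simp [h1], ?_, ?_⟩
      · rw [List.prod_cons, List.prod_cons, ← h2, ← ht1]; rfl
      · intro t' ht'
        rcases List.mem_cons.mp ht' with h4 | h4
        · rw [h4]; exact ht2
        · exact h3 t' h4
  obtain ⟨l', h1, h2, h3⟩ := hlift l hl2
  have hg : l'.prod = g := by
    apply Subtype.ext
    rw [h2, hl3]
  have h4 := Len.list l' h3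
  rw [hg, h1] at h4
  refine h4.mono ?_
  have h5 : l.length * (2 * Lc + L') * d ≤ M * d := by
    calc l.length * (2 * Lc + L') * d = l.length * d * (2 * Lc + L') := by ring
      _ ≤ (2 * n + 16 * d) * (2 * Lc + L') := Nat.mul_le_mul_right _ hl1
      _ ≤ M * d := hM
  exact Nat.le_of_mul_le_mul_right h5 hd

/-- words in `xl x` are short words in `x` -/
lemma Len_xl {n a k : ℕ} (y : Fin k → Alt n) (x : Fin a → Alt n) (hx : ∀ i, Len y 1 (x i))
    (m : ℕ) (v : Fin m → Fin (a + a) × Bool) : Len y m (wrd (xl x) v) := by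
  unfold wrd
  have h1 : ∀ t ∈ (List.ofFn fun t => sl (xl x) (v t)), Len y 1 t := by
    intro t ht
    rw [List.mem_ofFn] at ht
    obtain ⟨i, rfl⟩ := ht
    have h2 : ∀ j : Fin (a + a), Len y 1 (xl x j) := by
      intro j
      refine Fin.addCases (fun j => ?_) (fun j => ?_) j
      · simp only [xl, Fin.append_left]; exact hx j
      · simp only [xl, Fin.append_right]; exact Len.one 1
    simp only [sl]
    split_ifs
    · exact h2 _
    · exact (h2 _).inv
  have h2 := Len.list _ h1
  rw [List.length_ofFn, mul_one] at h2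
  exact h2

lemma En_xl {n a : ℕ} {V : Type*} [NormedAddCommGroup V] [InnerProductSpace ℂ V]
    (ρ : Alt n →* (V ≃ₗᵢ[ℂ] V)) (x : Fin a → Alt n) (v : V) : En ρ (xl x) v = En ρ x v := by
  unfold xl
  rw [En_append]
  simp [En]

end DM852
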