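import Pool.Agent.H852R2.EX.Par
import Pool.Agent.H14R2.RC.R1

/-!
Definitions for the project DM (MP_75608d_al): diameter of `A_n` for a fixed number of random
generators.
-/

namespace DM852
open RC14 RC852 Finset Equiv

noncomputable section

/-- `g` is a product of at most `L` of the elements `y_i^{±1}` -/
def Len {G : Type*} [Group G] {k : ℕ} (y : Fin k → G) (L : ℕ) (g : G) : Prop :=
  ∃ l : List (Fin k × Bool), l.length ≤ L ∧ (l.map (sl y)).prod = g

/-- the family `g` moves every ordered pair of points to an almost uniform pair -/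
def Mix2 {n : ℕ} {K : Type*} [Fintype K] (g : K → Perm (Fin n)) : Prop :=
  ∀ a b c d : Fin n, a ≠ b → c ≠ d →
    |(#{v | g v a = c ∧ g v b = d} : ℝ) * (n * (n - 1)) - Fintype.card K| ≤
      1 / n * Fintype.card K

/-- the tuple `x` followed by as many identity elements -/
def xl {n a : ℕ} (x : Fin a → Alt n) : Fin (a + a) → Alt n := Fin.append x fun _ => 1

/-! ### level `≤ n^{1/2-δ}` -/

def mD (δ : ℝ) (n : ℕ) : ℕ := ⌊(n : ℝ) ^ (1 / 2 - δ)⌋₊
def FD (δ : ℝ) (n : ℕ) : ℕ := ⌈(n : ℝ) ^ (1 - δ)⌉₊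

/-- for all `1 ≤ j ≤ n^{1/2-δ}` few block words of length `64 j` have `≥ n^{1-δ}` fixed points -/
def GoodD (δ : ℝ) {n q : ℕ} {K : Type*} [Fintype K] (g : K → Perm (Fin n))
    (b : Fin q → Perm (Fin n)) : Prop :=
  ∀ j, 1 ≤ j → j ≤ mD δ n →
    (Nat.card {w : Fin (64 * j) → K × (Fin q × Bool) // FD δ n ≤ nfix (bwd g b w)} : ℝ) ≤
      (1 / (n : ℝ)) ^ j * (Fintype.card (K × (Fin q × Bool)) : ℝ) ^ (64 * j)

/-! ### long cycles -/

/-- the window of lengths -/
def InW (a : ℝ) (n l : ℕ) : Prop := (1 - a) * n ≤ l ∧ (l : ℝ) ≤ (1 - a / 2) * n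

/-- `u` has a cycle with length in the window -/
def LC (a : ℝ) {n : ℕ} (u : Perm (Fin n)) : Prop :=
  ∃ c ∈ u.cycleFactorsFinset, InW a n c.support.card

open Classical in
/-- the sum of `1/ℓ` over the window: the proportion of permutations with `LC` -/
def pW (a : ℝ) (n : ℕ) : ℝ := ∑ l ∈ (Finset.range (n + 1)).filter (InW a n), 1 / (l : ℝ)

/-- the orbit of `p` under `c * T` stays in the support of `c` for `H` steps -/
def Run {n : ℕ} (H : ℕ) (c T : Perm (Fin n)) (p : Fin n) : Prop :=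
  ∀ t, 1 ≤ t → t ≤ H → ((c * T) ^ t) p ∈ c.support

open Classical in
/-- a bound for the irregularity of the return times -/
def ZH {n : ℕ} (H : ℕ) (c T : Perm (Fin n)) : ℝ := H / n + 2 / n * #{p | Run H c T p}

/-- a permutation of the complement of the support of `c` as a permutation of `Fin n` -/
def exc {n : ℕ} (c : Perm (Fin n)) (u : Perm {x // x ∉ c.support}) : Perm (Fin n) :=
  Perm.ofSubtype u

/-- the conjugates of `σ^{±1}` -/
def CC {n : ℕ} (σ : Perm (Fin n)) : Set (Perm (Fin n)) :=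
  {τ | ∃ γ : Perm (Fin n), τ = γ * σ * γ⁻¹ ∨ τ = γ * σ⁻¹ * γ⁻¹}

end

end DM852
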